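import Pool.Agent.Helper80.CB.Stmts

/-!
# Module A_CSTL: the key lemma of Chevalley's theorem
-/

namespace Pool.Agent.Helper80.CB

open MvPolynomial

section CSTL

variable {r : ℕ} {T : Type} [AddCommGroup T] [Module ℝ T] (c : Module.Basis (Fin r) ℝ T)

/-- Composition of polynomials with a linear map. -/
private noncomputable def cstl_act (w : T →ₗ[ℝ] T) :
    MvPolynomial (Fin r) ℝ →ₐ[ℝ] MvPolynomial (Fin r) ℝ :=
  aeval (fun s => linP c (c.coord s ∘ₗ w))

private theorem cstl_val_linP (l : T →ₗ[ℝ] ℝ) (x : T) : val c x (linP c l) = l x := by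
  unfold val linP
  rw [map_sum]
  simp only [map_mul, eval_C, eval_X]
  conv_rhs => rw [← c.sum_repr x]
  rw [map_sum]
  refine Finset.sum_congr rfl fun s _ => ?_
  rw [map_smul, smul_eq_mul, mul_comm]

private theorem cstl_val_act (w : T →ₗ[ℝ] T) (x : T) (P : MvPolynomial (Fin r) ℝ) :
    val c x (cstl_act c w P) = val c (w x) P := by
  have h : ((eval (fun i => c.repr x i)).comp (cstl_act c w).toRingHom) =
      eval (fun i => c.repr (w x) i) := by
    apply MvPolynomial.ringHom_ext
    · intro a
      simp [cstl_act]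
    · intro i
      have := cstl_val_linP c (c.coord i ∘ₗ w) x
      unfold val at this
      simp [cstl_act, this]
  exact congrArg (fun φ => φ P) h

private theorem cstl_ext {P Q : MvPolynomial (Fin r) ℝ} (h : ∀ x, val c x P = val c x Q) :
    P = Q := by
  apply MvPolynomial.funext
  intro y
  have := h (c.equivFun.symm y)
  unfold val at this
  have h2 : (fun i => c.repr (c.equivFun.symm y) i) = y := by
    funext i
    exact congrFun (c.equivFun.apply_symm_apply y) i
  rwa [h2] at this

private theorem cstl_act_mul (w w' : T →ₗ[ℝ] T) (P : MvPolynomial (Fin r) ℝ) :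
    cstl_act c w' (cstl_act c w P) = cstl_act c (w ∘ₗ w') P := by
  apply cstl_ext c
  intro x
  rw [cstl_val_act, cstl_val_act, cstl_val_act]
  rfl

private theorem cstl_act_id (P : MvPolynomial (Fin r) ℝ) : cstl_act c LinearMap.id P = P := by
  apply cstl_ext c
  intro x
  rw [cstl_val_act]
  rfl

private theorem cstl_inv_act {W : Subgroup (T ≃ₗ[ℝ] T)} {P : MvPolynomial (Fin r) ℝ}
    (hP : WInv c W P) {w : T ≃ₗ[ℝ] T} (hw : w ∈ W) : cstl_act c (w : T →ₗ[ℝ] T) P = P := by
  apply cstl_ext c
  intro x
  rw [cstl_val_act]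
  exact hP w hw x

private theorem cstl_linP_hom (l : T →ₗ[ℝ] ℝ) : (linP c l).IsHomogeneous 1 := by
  unfold linP
  apply MvPolynomial.IsHomogeneous.sum
  intro s _
  have := (MvPolynomial.isHomogeneous_C (Fin r) (l (c s))).mul (isHomogeneous_X ℝ s)
  simpa using this

private theorem cstl_act_hom (w : T →ₗ[ℝ] T) {P : MvPolynomial (Fin r) ℝ} {d : ℕ}
    (hP : P.IsHomogeneous d) : (cstl_act c w P).IsHomogeneous d := by
  have := hP.aeval (fun s => linP c (c.coord s ∘ₗ w)) (fun s => cstl_linP_hom c _)
  simpa [cstl_act] using this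

private theorem cstl_linP_ne {l : T →ₗ[ℝ] ℝ} (hl : l ≠ 0) : linP c l ≠ 0 := by
  intro h
  apply hl
  ext x
  rw [← cstl_val_linP c l x, h]
  simp [val]

/-- Divisibility by the linear form of a reflection. -/
private theorem cstl_div (s : T →ₗ[ℝ] T) (α : T →ₗ[ℝ] ℝ) (v : T) (hs : ∀ x, s x = x - α x • v)
    (P : MvPolynomial (Fin r) ℝ) : linP c α ∣ cstl_act c s P - P := by
  rw [← Ideal.mem_span_singleton, ← Ideal.Quotient.eq]
  have h : (Ideal.Quotient.mkₐ ℝ (Ideal.span {linP c α})).comp (cstl_act c s) =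
      Ideal.Quotient.mkₐ ℝ (Ideal.span {linP c α}) := by
    apply MvPolynomial.algHom_ext
    intro i
    simp only [AlgHom.comp_apply]
    show Ideal.Quotient.mk _ _ = Ideal.Quotient.mk _ _
    rw [Ideal.Quotient.eq, Ideal.mem_span_singleton]
    refine ⟨- C (c.coord i v), ?_⟩
    apply cstl_ext c
    intro x
    have h1 : val c x (cstl_act c s (X i) - X i) = val c x (cstl_act c s (X i)) - val c x (X i) := by
      unfold val; rw [map_sub]
    have h2 : val c x (linP c α * - C (c.coord i v)) = val c x (linP c α) * (- c.coord i v) := by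
      unfold val; rw [map_mul, map_neg, eval_C]
    rw [h1, h2, cstl_val_act, cstl_val_linP, hs]
    unfold val
    rw [eval_X, eval_X]
    simp
  exact congrArg (fun φ => φ P) h

/-- A homogeneous multiple of a linear form is the product with a homogeneous polynomial. -/
private theorem cstl_quot_hom {l Q R : MvPolynomial (Fin r) ℝ} (hl : l.IsHomogeneous 1)
    (hl0 : l ≠ 0) {d : ℕ} (hR : R.IsHomogeneous (d + 1)) (h : R = l * Q) : Q.IsHomogeneous d := by
  have h1 : homogeneousComponent (d + 1) (l * Q) = l * homogeneousComponent d Q := by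
    conv_lhs => rw [← MvPolynomial.sum_homogeneousComponent Q]
    rw [Finset.mul_sum, map_sum]
    have h2 : ∀ k, homogeneousComponent (d + 1) (l * homogeneousComponent k Q) =
        if k = d then l * homogeneousComponent k Q else 0 := by
      intro k
      have h3 : (l * homogeneousComponent k Q).IsHomogeneous (1 + k) :=
        hl.mul (homogeneousComponent_isHomogeneous k Q)
      rw [MvPolynomial.homogeneousComponent_of_mem h3]
      by_cases hk : k = d
      · rw [if_pos (by omega), if_pos hk]
      · rw [if_neg (by omega), if_neg hk]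
    rw [Finset.sum_congr rfl (fun k _ => h2 k)]
    rw [Finset.sum_ite_eq']
    split_ifs with h4
    · rfl
    · rw [Finset.mem_range, not_lt] at h4
      rw [homogeneousComponent_eq_zero _ _ (by omega), mul_zero]
  have h5 : homogeneousComponent (d + 1) R = R := by
    rw [MvPolynomial.homogeneousComponent_of_mem hR, if_pos rfl]
  rw [← h, h5, h] at h1
  have h6 := mul_left_cancel₀ hl0 h1
  rw [h6]
  exact homogeneousComponent_isHomogeneous d Q

/-- The Hilbert ideal is stable under the group. -/
private theorem cstl_stable (W : Subgroup (T ≃ₗ[ℝ] T)) {w : T ≃ₗ[ℝ] T} (hw : w ∈ W)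
    {P : MvPolynomial (Fin r) ℝ} (hP : P ∈ hilbIdeal c W) :
    cstl_act c (w : T →ₗ[ℝ] T) P ∈ hilbIdeal c W := by
  unfold hilbIdeal at hP
  refine Submodule.span_induction ?_ ?_ ?_ ?_ hP
  · intro Q hQ
    rw [cstl_inv_act c hQ.1 hw]
    exact Ideal.subset_span hQ
  · rw [map_zero]; exact Ideal.zero_mem _
  · intro Q R _ _ h1 h2
    rw [map_add]; exact Ideal.add_mem _ h1 h2
  · intro a Q _ h1
    rw [smul_eq_mul, map_mul]
    exact Ideal.mul_mem_left _ _ h1

theorem st_CSTL (hR : ST_REYN) : ST_CSTL := by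
  intro r T _ _ c W hfin hW m J hJ hnot d
  obtain ⟨ρ, h1, h2, h3, h4, h5⟩ := hR r T c W hfin
  induction d with
  | zero =>
    intro P hP hsum
    have hPc : P 0 = C (coeff 0 (P 0)) := by
      have : (P 0).totalDegree = 0 := by
        by_cases h0 : P 0 = 0
        · rw [h0]; simp
        · exact hP.totalDegree h0
      exact (totalDegree_eq_zero_iff_eq_C).1 this
    set k : ℝ := coeff 0 (P 0) with hk
    have hCinv : ∀ a : ℝ, WInv c W (C a) := by
      intro a w _ x
      unfold val
      rw [eval_C, eval_C]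
    have hk0 : k = 0 := by
      by_contra hne
      apply hnot
      refine ⟨fun i => C (-k⁻¹) * ρ (P i.succ), ?_, ?_⟩
      · intro i w hw x
        have := h1 (P i.succ) w hw x
        unfold val at this ⊢
        rw [map_mul, map_mul, this, eval_C, eval_C]
      · have h6 : ∑ i, J i * ρ (P i) = 0 := by
          have : ρ (∑ i, P i * J i) = 0 := by rw [hsum, map_zero]
          rw [map_sum] at this
          rw [← this]
          refine Finset.sum_congr rfl fun i _ => ?_
          rw [mul_comm (P i), h3 _ _ (hJ i)]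
        rw [Fin.sum_univ_succ] at h6
        have h7 : ρ (P 0) = C k := by
          rw [hPc]
          exact h2 _ (hCinv k)
        rw [h7] at h6
        have h8 : J 0 * C k = - ∑ i : Fin m, J i.succ * ρ (P i.succ) := by
          linear_combination h6
        have h9 : J 0 = C k⁻¹ * (J 0 * C k) := by
          have : (C k⁻¹ : MvPolynomial (Fin r) ℝ) * C k = 1 := by
            rw [← C_mul, inv_mul_cancel₀ hne, C_1]
          calc J 0 = (C k⁻¹ * C k) * J 0 := by rw [this, one_mul]
            _ = _ := by ring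
        rw [h9, h8, mul_neg, Finset.mul_sum, ← Finset.sum_neg_distrib]
        refine Finset.sum_congr rfl fun i _ => ?_
        rw [C_neg]
        ring
    rw [hPc, hk0, C_0]
    exact Ideal.zero_mem _
  | succ d ih =>
    intro P hP hsum
    -- reflections
    have hrefl : ∀ s ∈ W, IsRefl s → cstl_act c (s : T →ₗ[ℝ] T) (P 0) - P 0 ∈ hilbIdeal c W := by
      intro s hs ⟨α, v, hsv⟩
      by_cases hα : α = 0
      · have : (s : T →ₗ[ℝ] T) = LinearMap.id := by
          ext x
          have := hsv x
          rw [hα] at this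
          simpa using this
        rw [this, cstl_act_id, sub_self]
        exact Ideal.zero_mem _
      · have hdiv := fun i => cstl_div c (s : T →ₗ[ℝ] T) α v (fun x => hsv x) (P i)
        choose Q hQ using hdiv
        have hl0 := cstl_linP_ne c hα
        have hQ0 : (Q 0).IsHomogeneous d := by
          refine cstl_quot_hom (cstl_linP_hom c α) hl0 ?_ (hQ 0)
          exact (cstl_act_hom c _ hP).sub hP
        have hsumQ : ∑ i, Q i * J i = 0 := by
          have h6 : ∑ i, cstl_act c (s : T →ₗ[ℝ] T) (P i) * J i = 0 := by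
            have : cstl_act c (s : T →ₗ[ℝ] T) (∑ i, P i * J i) = 0 := by rw [hsum, map_zero]
            rw [map_sum] at this
            rw [← this]
            refine Finset.sum_congr rfl fun i _ => ?_
            rw [map_mul, cstl_inv_act c (hJ i) hs]
          have h7 : linP c α * ∑ i, Q i * J i = 0 := by
            rw [Finset.mul_sum]
            have h8 : ∀ i, linP c α * (Q i * J i) =
                cstl_act c (s : T →ₗ[ℝ] T) (P i) * J i - P i * J i := by
              intro i
              rw [← mul_assoc, ← hQ i]; ring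
            rw [Finset.sum_congr rfl (fun i _ => h8 i), Finset.sum_sub_distrib, h6, hsum, sub_zero]
          exact (mul_eq_zero.1 h7).resolve_left hl0
        have := ih Q hQ0 hsumQ
        rw [hQ 0]
        exact Ideal.mul_mem_left _ _ this
    have hall : ∀ w ∈ W, cstl_act c (w : T →ₗ[ℝ] T) (P 0) - P 0 ∈ hilbIdeal c W := by
      intro w hw
      have hw' : w ∈ Subgroup.closure {s | s ∈ W ∧ IsRefl s} := by rw [← hW]; exact hw
      have key : w ∈ W ∧ cstl_act c (w : T →ₗ[ℝ] T) (P 0) - P 0 ∈ hilbIdeal c W := by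
        refine Subgroup.closure_induction (p := fun w _ => w ∈ W ∧
          cstl_act c (w : T →ₗ[ℝ] T) (P 0) - P 0 ∈ hilbIdeal c W) ?_ ?_ ?_ ?_ hw'
        · intro s hs
          exact ⟨hs.1, hrefl s hs.1 hs.2⟩
        · refine ⟨W.one_mem, ?_⟩
          have : ((1 : T ≃ₗ[ℝ] T) : T →ₗ[ℝ] T) = LinearMap.id := rfl
          rw [this, cstl_act_id, sub_self]
          exact Ideal.zero_mem _
        · intro a b _ _ ha hb
          refine ⟨W.mul_mem ha.1 hb.1, ?_⟩
          have h6 : ((a * b : T ≃ₗ[ℝ] T) : T →ₗ[ℝ] T) = (a : T →ₗ[ℝ] T) ∘ₗ (b : T →ₗ[ℝ] T) := rfl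
          have h7 : cstl_act c ((a * b : T ≃ₗ[ℝ] T) : T →ₗ[ℝ] T) (P 0) - P 0 =
              cstl_act c (b : T →ₗ[ℝ] T) (cstl_act c (a : T →ₗ[ℝ] T) (P 0) - P 0) +
              (cstl_act c (b : T →ₗ[ℝ] T) (P 0) - P 0) := by
            rw [h6, ← cstl_act_mul, map_sub]; ring
          rw [h7]
          exact Ideal.add_mem _ (cstl_stable c W hb.1 ha.2) hb.2
        · intro a _ ha
          refine ⟨W.inv_mem ha.1, ?_⟩
          have h6 : (a : T →ₗ[ℝ] T) ∘ₗ ((a⁻¹ : T ≃ₗ[ℝ] T) : T →ₗ[ℝ] T) = LinearMap.id := by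
            have : ((a * a⁻¹ : T ≃ₗ[ℝ] T) : T →ₗ[ℝ] T) = LinearMap.id := by
              rw [mul_inv_cancel]; rfl
            exact this
          have h7 : cstl_act c ((a⁻¹ : T ≃ₗ[ℝ] T) : T →ₗ[ℝ] T) (P 0) - P 0 =
              - cstl_act c ((a⁻¹ : T ≃ₗ[ℝ] T) : T →ₗ[ℝ] T)
                (cstl_act c (a : T →ₗ[ℝ] T) (P 0) - P 0) := by
            rw [map_sub, cstl_act_mul, h6, cstl_act_id]; ring
          rw [h7]
          exact Ideal.neg_mem_iff _ |>.2 (cstl_stable c W (W.inv_mem ha.1) ha.2)
      exact key.2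
    have h6 : ρ (P 0) - P 0 ∈ hilbIdeal c W := by
      apply h5
      intro w hw
      exact ⟨cstl_act c (w : T →ₗ[ℝ] T) (P 0), fun x => cstl_val_act c _ x _, hall w hw⟩
    have h7 : ρ (P 0) ∈ hilbIdeal c W :=
      Ideal.subset_span ⟨h1 _, d + 1, Nat.succ_pos d, h4 _ _ hP⟩
    have : P 0 = ρ (P 0) - (ρ (P 0) - P 0) := by ring
    rw [this]
    exact Ideal.sub_mem _ h7 h6

end CSTL

end Pool.Agent.Helper80.CB
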