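import Pool.Agent.Helper80.CB.Stmts

/-!
# Module A_PROJ: root vectors from nonzero entries
-/

namespace Pool.Agent.Helper80.CB

open Matrix MvPolynomial

private theorem proj_diag {n : ℕ} {D : Cpt n} {t : Submodule ℝ (Mat n)} (ht : Torus D t) (x : t) :
    (x : Mat n) = Matrix.diagonal (fun i => ((wt t i x : ℝ) : ℂ)) := by
  ext i j
  by_cases hij : i = j
  · subst hij
    rw [Matrix.diagonal_apply_eq]
    have h1 := congrFun (congrFun (D.herm _ (ht.le x.2)) i) i
    rw [Matrix.conjTranspose_apply] at h1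
    have h2 : (starRingEnd ℂ) ((x : Mat n) i i) = (x : Mat n) i i := h1
    rw [Complex.conj_eq_iff_re] at h2
    exact h2.symm
  · rw [Matrix.diagonal_apply_ne _ hij]
    exact ht.diag _ x.2 i j hij

/-- The complexification of `D.h`. -/
private def proj_HC {n : ℕ} (D : Cpt n) : Submodule ℂ (Mat n) where
  carrier := {Z | ∃ A ∈ D.h, ∃ B ∈ D.h, Z = A + Complex.I • B}
  zero_mem' := ⟨0, D.h.zero_mem, 0, D.h.zero_mem, by simp⟩
  add_mem' := by
    rintro _ _ ⟨A, hA, B, hB, rfl⟩ ⟨A', hA', B', hB', rfl⟩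
    exact ⟨A + A', D.h.add_mem hA hA', B + B', D.h.add_mem hB hB', by rw [smul_add]; abel⟩
  smul_mem' := by
    rintro z _ ⟨A, hA, B, hB, rfl⟩
    refine ⟨z.re • A - z.im • B, D.h.sub_mem (D.h.smul_mem _ hA) (D.h.smul_mem _ hB),
      z.im • A + z.re • B, D.h.add_mem (D.h.smul_mem _ hA) (D.h.smul_mem _ hB), ?_⟩
    ext i j
    simp only [Matrix.smul_apply, Matrix.add_apply, Matrix.sub_apply, smul_eq_mul,
      Complex.real_smul]
    have hz : z = (z.re : ℂ) + (z.im : ℂ) * Complex.I := (Complex.re_add_im z).symm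
    linear_combination (A i j + Complex.I * B i j) * hz + (z.im : ℂ) * (B i j) * Complex.I_mul_I

private theorem proj_ad {n : ℕ} (D : Cpt n) {x Z : Mat n} (hx : x ∈ D.h) (hZ : Z ∈ proj_HC D) :
    x * Z - Z * x ∈ proj_HC D := by
  obtain ⟨A, hA, B, hB, rfl⟩ := hZ
  have h1 : ∀ C ∈ D.h, x * C - C * x ∈ proj_HC D := by
    intro C hC
    have h2 := D.brk x hx C hC
    have h3 : Complex.I • (x * C - C * x) ∈ proj_HC D :=
      ⟨_, h2, 0, D.h.zero_mem, by simp⟩
    have h4 := (proj_HC D).smul_mem (-Complex.I) h3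
    rw [smul_smul] at h4
    have : -Complex.I * Complex.I = 1 := by
      rw [neg_mul, Complex.I_mul_I, neg_neg]
    rwa [this, one_smul] at h4
  have h5 : x * (A + Complex.I • B) - (A + Complex.I • B) * x =
      (x * A - A * x) + Complex.I • (x * B - B * x) := by
    rw [mul_add, add_mul, Matrix.mul_smul, Matrix.smul_mul, smul_sub]
    abel
  rw [h5]
  exact (proj_HC D).add_mem (h1 A hA) ((proj_HC D).smul_mem _ (h1 B hB))

theorem st_PROJ (hA : ST_AVOID) : ST_PROJ := by
  intro n D t ht X hX p q hpq hne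
  classical
  -- a separating element
  let F : Fin n × Fin n → (t →ₗ[ℝ] ℝ) := fun k => (wt t k.1 - wt t k.2) - (wt t p - wt t q)
  let N := {k : Fin n × Fin n // F k ≠ 0}
  let eN : Fin (Fintype.card N) ≃ N := (Fintype.equivFin N).symm
  obtain ⟨y, hy⟩ := hA t (Fintype.card N) (fun k => F (eN k).1) (fun k => (eN k).2)
  have hsep : ∀ i j, wt t i - wt t j ≠ wt t p - wt t q →
      wt t i y - wt t j y ≠ wt t p y - wt t q y := by
    intro i j h1 h2
    have hF : F (i, j) ≠ 0 := sub_ne_zero.2 h1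
    have h4 := hy (eN.symm ⟨(i, j), hF⟩)
    simp only [Equiv.apply_symm_apply] at h4
    apply h4
    simp only [F, LinearMap.sub_apply]
    exact sub_eq_zero.2 h2
  have hyd := proj_diag ht y
  -- products of the operators `ad y - c`
  have key : ∀ S : Finset ℝ, ∃ Z ∈ proj_HC D, ∀ i j,
      Z i j = (∏ c ∈ S, (((wt t i y - wt t j y - c : ℝ)) : ℂ)) * X i j := by
    intro S
    induction S using Finset.induction_on with
    | empty => exact ⟨X, ⟨X, hX, 0, D.h.zero_mem, by simp⟩, fun i j => by simp⟩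
    | insert c S hc ih =>
      obtain ⟨Z, hZ, hZe⟩ := ih
      refine ⟨((y : Mat n) * Z - Z * (y : Mat n)) - (c : ℂ) • Z,
        (proj_HC D).sub_mem (proj_ad D (ht.le y.2) hZ) ((proj_HC D).smul_mem _ hZ), ?_⟩
      intro i j
      rw [Finset.prod_insert hc]
      rw [Matrix.sub_apply, Matrix.sub_apply, Matrix.smul_apply, hyd, Matrix.diagonal_mul,
        Matrix.mul_diagonal, hZe i j]
      push_cast
      rw [smul_eq_mul]
      ring
  let d : Fin n × Fin n → ℝ := fun k => wt t k.1 y - wt t k.2 y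
  obtain ⟨Z, hZ, hZe⟩ := key ((Finset.univ.image d).erase (d (p, q)))
  set K : ℂ := ∏ c ∈ (Finset.univ.image d).erase (d (p, q)), (((d (p, q) - c : ℝ)) : ℂ) with hK
  have hK0 : K ≠ 0 := by
    rw [hK, Finset.prod_ne_zero_iff]
    intro c hc
    have := Finset.ne_of_mem_erase hc
    exact_mod_cast sub_ne_zero.2 (Ne.symm this)
  have hent : ∀ i j, (K⁻¹ • Z) i j =
      if wt t i - wt t j = wt t p - wt t q then X i j else 0 := by
    intro i j
    rw [Matrix.smul_apply, hZe, smul_eq_mul]
    split_ifs with h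
    · have h1 : wt t i y - wt t j y = d (p, q) := by
        have := congrArg (fun l : t →ₗ[ℝ] ℝ => l y) h
        simpa using this
      rw [h1, ← hK, ← mul_assoc, inv_mul_cancel₀ hK0, one_mul]
    · have h1 := hsep i j h
      have h2 : (∏ c ∈ (Finset.univ.image d).erase (d (p, q)),
          (((wt t i y - wt t j y - c : ℝ)) : ℂ)) = 0 := by
        apply Finset.prod_eq_zero (i := d (i, j))
        · exact Finset.mem_erase.2 ⟨h1, Finset.mem_image.2 ⟨(i, j), Finset.mem_univ _, rfl⟩⟩
        · simp [d]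
      rw [h2, zero_mul, mul_zero]
  refine ⟨K⁻¹ • Z, ?_, ?_, ?_, ?_⟩
  · exact (proj_HC D).smul_mem _ hZ
  · intro h0
    have := hent p q
    rw [h0, if_pos rfl] at this
    exact hpq this.symm
  · intro x
    ext i j
    rw [Matrix.sub_apply, proj_diag ht x, Matrix.diagonal_mul, Matrix.mul_diagonal, hent,
      Matrix.smul_apply, hent]
    split_ifs with h
    · have := congrArg (fun l : t →ₗ[ℝ] ℝ => l x) h
      simp only [LinearMap.sub_apply] at this ⊢
      rw [← this, smul_eq_mul]
      push_cast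
      ring
    · simp
  · exact sub_ne_zero.2 hne

end Pool.Agent.Helper80.CB
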