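import Pool.Agent.Helper80.CB.Stmts

/-!
# Module A_WPERM: elements of the Weyl group permute the weights
-/

namespace Pool.Agent.Helper80.CB

open Matrix MvPolynomial

/-- Families with the same multiset of values differ by a permutation. -/
private theorem wperm_exists {n : ℕ} {β : Type*} [DecidableEq β] (f g : Fin n → β)
    (h : Multiset.map f Finset.univ.val = Multiset.map g Finset.univ.val) :
    ∃ σ : Equiv.Perm (Fin n), ∀ i, f i = g (σ i) := by
  have hc : ∀ y, Fintype.card {i // f i = y} = Fintype.card {i // g i = y} := by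
    intro y
    have h1 := congrArg (Multiset.count y) h
    rw [Multiset.count_map, Multiset.count_map] at h1
    rw [Fintype.card_subtype, Fintype.card_subtype]
    have h2 : ∀ k : Fin n → β, (Finset.univ.filter (fun i => k i = y)).card =
        Multiset.card (Multiset.filter (fun a => y = k a) Finset.univ.val) := by
      intro k
      rw [Finset.card_def, Finset.filter_val]
      congr 1
      apply Multiset.filter_congr
      intro a _
      exact eq_comm
    rw [h2, h2, h1]
  let e : ∀ y, {i // f i = y} ≃ {i // g i = y} := fun y => Fintype.equivOfCardEq (hc y)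
  refine ⟨(Equiv.sigmaFiberEquiv f).symm.trans ((Equiv.sigmaCongrRight e).trans
    (Equiv.sigmaFiberEquiv g)), fun i => ?_⟩
  exact ((e (f i)) ⟨i, rfl⟩).2.symm

private theorem wperm_diag {n : ℕ} {D : Cpt n} {t : Submodule ℝ (Mat n)} (ht : Torus D t) (x : t) :
    (x : Mat n) = Matrix.diagonal (fun i => ((wt t i x : ℝ) : ℂ)) := by
  ext i j
  by_cases hij : i = j
  · subst hij
    rw [Matrix.diagonal_apply_eq]
    have h1 := congrFun (congrFun (D.herm _ (ht.le x.2)) i) i
    rw [Matrix.conjTranspose_apply] at h1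
    have h2 : (starRingEnd ℂ) ((x : Mat n) i i) = (x : Mat n) i i := h1
    rw [Complex.conj_eq_iff_re] at h2
    exact h2.symm
  · rw [Matrix.diagonal_apply_ne _ hij]
    exact ht.diag _ x.2 i j hij

theorem st_WPERM (hA : ST_AVOID) : ST_WPERM := by
  intro n D t ht w hw
  classical
  obtain ⟨g, hg, hgw⟩ := hw
  have hu := D.unit g hg
  have hu' : g * gᴴ = 1 := mul_eq_one_comm.1 hu
  -- equal spectra
  have hspec : ∀ x : t, ∃ σ : Equiv.Perm (Fin n), ∀ i, wt t i (w x) = wt t (σ i) x := by
    intro x
    have h1 : (w x : Mat n).charpoly = (x : Mat n).charpoly := by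
      rw [← hgw x, Matrix.charpoly_mul_comm, ← mul_assoc, hu, one_mul]
    rw [wperm_diag ht (w x), wperm_diag ht x, Matrix.charpoly_diagonal,
      Matrix.charpoly_diagonal] at h1
    have h2 := congrArg Polynomial.roots h1
    have h3 : ∀ a : Fin n → ℂ, (∏ i, (Polynomial.X - Polynomial.C (a i))).roots =
        Multiset.map a Finset.univ.val := by
      intro a
      have := Polynomial.roots_multiset_prod_X_sub_C (Multiset.map a Finset.univ.val)
      rw [Multiset.map_map] at this
      exact this
    rw [h3, h3] at h2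
    obtain ⟨σ, hσ⟩ := wperm_exists _ _ h2
    refine ⟨σ, fun i => ?_⟩
    have := hσ i
    exact_mod_cast this
  -- generic element
  let F : Fin n × Fin n → (t →ₗ[ℝ] ℝ) := fun p => (wt t p.1) ∘ₗ (w : t →ₗ[ℝ] t) - wt t p.2
  let N := {p : Fin n × Fin n // F p ≠ 0}
  let eN : Fin (Fintype.card N) ≃ N := (Fintype.equivFin N).symm
  obtain ⟨y, hy⟩ := hA t (Fintype.card N) (fun k => F (eN k).1) (fun k => (eN k).2)
  obtain ⟨σ, hσ⟩ := hspec y
  refine ⟨σ, fun i x => ?_⟩
  by_contra hne
  have hF : F (i, σ i) ≠ 0 := by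
    intro h0
    apply hne
    have := congrArg (fun l : t →ₗ[ℝ] ℝ => l x) h0
    simp only [F, LinearMap.sub_apply, LinearMap.zero_apply, LinearMap.comp_apply] at this
    exact sub_eq_zero.1 this
  have h4 := hy (eN.symm ⟨(i, σ i), hF⟩)
  simp only [Equiv.apply_symm_apply] at h4
  apply h4
  simp only [F, LinearMap.sub_apply, LinearMap.comp_apply]
  exact sub_eq_zero.2 (hσ i)

end Pool.Agent.Helper80.CB
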