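import Pool.Agent.Helper83.CB.Defs4

/-!
# Module DEG: degree, permutations and contractions of characteristic forms
-/

namespace Pool.Agent.Helper83.CB

open MvPolynomial

section DEG

variable {ι : Type} [Fintype ι] [DecidableEq ι] (Λ : Ext ι)

private theorem deg_num_e (ν : ι) : Λ.num * Λ.e ν - Λ.e ν * Λ.num = Λ.e ν := by
  unfold Ext.num
  rw [Finset.sum_mul, Finset.mul_sum, ← Finset.sum_sub_distrib]
  have h : ∀ μ, Λ.e μ * Λ.c μ * Λ.e ν - Λ.e ν * (Λ.e μ * Λ.c μ) =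
      if μ = ν then Λ.e μ else 0 := by
    intro μ
    have h1 := Λ.ce μ ν
    have h2 := Λ.ee ν μ
    have h3 : Λ.e μ * Λ.c μ * Λ.e ν - Λ.e ν * (Λ.e μ * Λ.c μ) =
        Λ.e μ * (Λ.c μ * Λ.e ν + Λ.e ν * Λ.c μ) := by
      rw [← mul_assoc (Λ.e ν), h2, mul_add]
      simp only [neg_mul, mul_assoc, sub_neg_eq_add]
    rw [h3, h1]
    split_ifs <;> simp
  rw [Finset.sum_congr rfl (fun μ _ => h μ), Finset.sum_ite_eq' Finset.univ ν]
  simp

private theorem deg_num_two (φ : ι → ι → ℝ) :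
    Λ.num * Λ.two φ - Λ.two φ * Λ.num = (2 : ℝ) • Λ.two φ := by
  unfold Ext.two
  rw [mul_smul_comm, smul_mul_assoc, ← smul_sub, smul_comm (2 : ℝ)]
  congr 1
  rw [Finset.mul_sum, Finset.sum_mul, ← Finset.sum_sub_distrib, Finset.smul_sum]
  refine Finset.sum_congr rfl fun μ _ => ?_
  rw [Finset.mul_sum, Finset.sum_mul, ← Finset.sum_sub_distrib, Finset.smul_sum]
  refine Finset.sum_congr rfl fun ν _ => ?_
  rw [mul_smul_comm, smul_mul_assoc, ← smul_sub, smul_comm (2 : ℝ)]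
  congr 1
  have h1 := deg_num_e Λ μ
  have h2 := deg_num_e Λ ν
  have h3 : Λ.num * (Λ.e μ * Λ.e ν) - Λ.e μ * Λ.e ν * Λ.num =
      (Λ.num * Λ.e μ - Λ.e μ * Λ.num) * Λ.e ν + Λ.e μ * (Λ.num * Λ.e ν - Λ.e ν * Λ.num) := by
    rw [sub_mul, mul_sub]
    simp only [mul_assoc]
    abel
  rw [h3, h1, h2, two_smul]

private theorem deg_two_U (φ : ι → ι → ℝ) (σ : Equiv.Perm ι) :
    Λ.two φ * Λ.U σ = Λ.U σ * Λ.two (fun μ ν => φ (σ μ) (σ ν)) := by
  unfold Ext.two
  rw [mul_smul_comm, smul_mul_assoc]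
  congr 1
  rw [Finset.mul_sum, Finset.sum_mul]
  rw [← Equiv.sum_comp σ]
  refine Finset.sum_congr rfl fun μ _ => ?_
  rw [Finset.mul_sum, Finset.sum_mul]
  rw [← Equiv.sum_comp σ]
  refine Finset.sum_congr rfl fun ν _ => ?_
  rw [mul_smul_comm, smul_mul_assoc]
  congr 1
  rw [← mul_assoc, Λ.Ue, mul_assoc, mul_assoc, Λ.Ue]

private theorem deg_c_two (φ : ι → ι → ℝ) (μ : ι) (h : ∀ ν, φ μ ν = 0 ∧ φ ν μ = 0) :
    Λ.c μ * Λ.two φ = Λ.two φ * Λ.c μ := by
  unfold Ext.two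
  rw [mul_smul_comm, smul_mul_assoc]
  congr 1
  rw [Finset.mul_sum, Finset.sum_mul]
  refine Finset.sum_congr rfl fun α _ => ?_
  rw [Finset.mul_sum, Finset.sum_mul]
  refine Finset.sum_congr rfl fun β _ => ?_
  by_cases ha : μ = α
  · subst ha
    rw [(h β).1]; simp
  by_cases hb : μ = β
  · subst hb
    rw [(h α).2]; simp
  rw [mul_smul_comm, smul_mul_assoc]
  congr 1
  have h1 := Λ.ce μ α
  rw [if_neg ha] at h1
  have h2 := Λ.ce μ β
  rw [if_neg hb] at h2
  have h3 : Λ.c μ * Λ.e α = -(Λ.e α * Λ.c μ) := eq_neg_of_add_eq_zero_left h1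
  have h4 : Λ.c μ * Λ.e β = -(Λ.e β * Λ.c μ) := eq_neg_of_add_eq_zero_left h2
  rw [← mul_assoc, h3, neg_mul, mul_assoc, h4, mul_neg, neg_neg, mul_assoc]

end DEG

/-- polynomials in elements of degree 2 -/
private theorem deg_hom {A : Type} [Ring A] [Algebra ℝ A] {q : ℕ} (N : A)
    (Φ : MvPolynomial (Fin q) ℝ →ₐ[ℝ] A)
    (hf : ∀ i, N * Φ (X i) - Φ (X i) * N = (2 : ℝ) • Φ (X i))
    (P : MvPolynomial (Fin q) ℝ) (d : ℕ) (hP : P.IsHomogeneous d) :
    N * Φ P - Φ P * N = (2 * d : ℝ) • Φ P := by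
  have hD : ∀ a b : A, N * (a * b) - (a * b) * N = (N * a - a * N) * b + a * (N * b - b * N) := by
    intro a b
    rw [sub_mul, mul_sub]
    simp only [mul_assoc]
    abel
  have hmon : ∀ s : Fin q →₀ ℕ, N * Φ (monomial s (1 : ℝ)) - Φ (monomial s (1 : ℝ)) * N =
      (2 * (s.degree : ℝ)) • Φ (monomial s (1 : ℝ)) := by
    intro s
    induction s using Finsupp.induction_linear with
    | zero =>
      have : monomial (0 : Fin q →₀ ℕ) (1 : ℝ) = 1 := rfl
      rw [this, map_one]; simp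
    | add s t hs ht =>
      have h1 : monomial (s + t) (1 : ℝ) = monomial s (1 : ℝ) * monomial t (1 : ℝ) := by
        rw [monomial_mul, one_mul]
      rw [h1, map_mul, hD, hs, ht, smul_mul_assoc, mul_smul_comm, ← add_smul]
      congr 1
      rw [map_add]
      push_cast
      ring
    | single i k =>
      induction k with
      | zero =>
        rw [Finsupp.single_zero]
        have : monomial (0 : Fin q →₀ ℕ) (1 : ℝ) = 1 := rfl
        rw [this, map_one]; simp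
      | succ k ih =>
        have h1 : monomial (Finsupp.single i (k + 1)) (1 : ℝ) =
            monomial (Finsupp.single i k) (1 : ℝ) * X i := by
          rw [Finsupp.single_add, X, monomial_mul, one_mul]
        rw [h1, map_mul, hD, ih, hf, smul_mul_assoc, mul_smul_comm, ← add_smul]
        congr 1
        rw [Finsupp.degree_single, Finsupp.degree_single]
        push_cast
        ring
  conv_lhs => rw [P.as_sum]
  conv_rhs => rw [P.as_sum]
  rw [map_sum, Finset.mul_sum, Finset.sum_mul, ← Finset.sum_sub_distrib, Finset.smul_sum]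
  refine Finset.sum_congr rfl fun s hs => ?_
  have hdeg : s.degree = d := by
    have := hP (mem_support_iff.1 hs)
    rwa [Finsupp.degree_eq_weight_one]
  have h1 : monomial s (coeff s P) = (coeff s P) • monomial s (1 : ℝ) := by
    rw [smul_monomial, smul_eq_mul, mul_one]
  rw [h1, map_smul, mul_smul_comm, smul_mul_assoc, ← smul_sub, hmon s, smul_comm, hdeg]

theorem st_DEG (hEV : ST_EV) (hEVEN : ST_EVEN) : ST_DEG := by
  intro ι _ _ Λ n q c P F
  obtain ⟨_, hcomm, htwo⟩ := hEVEN ι Λ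
  have hΦ : ∀ G : ι → ι → M n, ∃ Φ : MvPolynomial (Fin q) ℝ →ₐ[ℝ] (Λ.X →L[ℝ] Λ.X),
      (∀ P, Φ P = PF Λ c P G) ∧ ∀ i, Φ (X i) = Λ.two (fun μ ν => c i (G μ ν)) := by
    intro G
    obtain ⟨Φ, h1, h2, _⟩ := hEV q (Λ.X →L[ℝ] Λ.X) (fun a => Λ.two fun μ ν => c a (G μ ν))
      (fun i j => hcomm _ (htwo _) _ (htwo _))
    exact ⟨Φ, h1, h2⟩
  refine ⟨?_, ?_, ?_⟩
  · intro d hP
    obtain ⟨Φ, h1, h2⟩ := hΦ F
    rw [← h1]
    exact deg_hom Λ.num Φ (fun i => by rw [h2]; exact deg_num_two Λ _) P d hP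
  · intro σ
    obtain ⟨Φ, h1, h2⟩ := hΦ F
    obtain ⟨Ψ, h3, h4⟩ := hΦ (fun μ ν => F (σ μ) (σ ν))
    rw [← h1, ← h3]
    induction P using MvPolynomial.induction_on with
    | C a =>
      have e1 : Φ (C a) = a • (1 : Λ.X →L[ℝ] Λ.X) := by
        rw [← algebraMap_eq, AlgHom.commutes, Algebra.algebraMap_eq_smul_one]
      have e2 : Ψ (C a) = a • (1 : Λ.X →L[ℝ] Λ.X) := by
        rw [← algebraMap_eq, AlgHom.commutes, Algebra.algebraMap_eq_smul_one]
      rw [e1, e2, smul_mul_assoc, mul_smul_comm, one_mul, mul_one]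
    | add p r hp hr => rw [map_add, map_add, add_mul, mul_add, hp, hr]
    | mul_X p i hp =>
      rw [map_mul, map_mul, mul_assoc, h2, deg_two_U, ← mul_assoc, hp, mul_assoc, h4]
  · intro μ hμ
    obtain ⟨Φ, h1, h2⟩ := hΦ F
    rw [← h1]
    induction P using MvPolynomial.induction_on with
    | C a =>
      have e1 : Φ (C a) = a • (1 : Λ.X →L[ℝ] Λ.X) := by
        rw [← algebraMap_eq, AlgHom.commutes, Algebra.algebraMap_eq_smul_one]
      rw [e1, smul_mul_assoc, mul_smul_comm, one_mul, mul_one]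
    | add p r hp hr => rw [map_add, add_mul, mul_add, hp, hr]
    | mul_X p i hp =>
      have h5 : Λ.c μ * Λ.two (fun μ ν => c i (F μ ν)) = Λ.two (fun μ ν => c i (F μ ν)) * Λ.c μ := by
        apply deg_c_two
        intro ν
        rw [(hμ ν).1, (hμ ν).2, map_zero]
        exact ⟨rfl, rfl⟩
      rw [map_mul, ← mul_assoc, hp, mul_assoc, h2, h5, ← mul_assoc]

end Pool.Agent.Helper83.CB
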