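import Pool.Agent.Helper83.CB.Defs4

/-!
# Module TRP: trace polynomials
-/

namespace Pool.Agent.Helper83.CB

open MvPolynomial

/-- matrix entries -/
private noncomputable def trp_ent {n : ℕ} (Y : M n) (a b : Fin n) : ℂ :=
  (Y (EuclideanSpace.single b (1 : ℂ))) a

private theorem trp_single_sum {n : ℕ} (z : E n) :
    z = ∑ k, z k • EuclideanSpace.single k (1 : ℂ) := by
  ext i
  simp [Finset.sum_apply, Pi.single_apply]

private theorem trp_ent_mul {n : ℕ} (Y Z : M n) (a b : Fin n) :
    trp_ent (Y * Z) a b = ∑ k, trp_ent Y a k * trp_ent Z k b := by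
  unfold trp_ent
  have h1 : (Y * Z) (EuclideanSpace.single b (1 : ℂ)) = Y (Z (EuclideanSpace.single b (1 : ℂ))) :=
    rfl
  rw [h1]
  conv_lhs => rw [trp_single_sum (Z (EuclideanSpace.single b (1 : ℂ)))]
  rw [map_sum]
  simp only [map_smul]
  rw [WithLp.ofLp_sum, Finset.sum_apply]
  refine Finset.sum_congr rfl fun k _ => ?_
  rw [PiLp.smul_apply, smul_eq_mul, mul_comm]

private theorem trp_ent_one {n : ℕ} (a b : Fin n) :
    trp_ent (1 : M n) a b = if a = b then 1 else 0 := by
  unfold trp_ent
  simp [Pi.single_apply]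

private theorem trp_trace {n : ℕ} (Y : M n) :
    LinearMap.trace ℂ (E n) (Y : E n →ₗ[ℂ] E n) = ∑ a, trp_ent Y a a := by
  rw [LinearMap.trace_eq_matrix_trace ℂ (EuclideanSpace.basisFun (Fin n) ℂ).toBasis, Matrix.trace]
  refine Finset.sum_congr rfl fun a _ => ?_
  rw [Matrix.diag_apply, LinearMap.toMatrix_apply]
  simp [trp_ent]

private noncomputable def trp_c (n : ℕ) (k : Fin n × Fin n × Bool) : M n →ₗ[ℝ] ℝ where
  toFun Y := if k.2.2 then (trp_ent Y k.1 k.2.1).re else (trp_ent Y k.1 k.2.1).im
  map_add' Y Z := by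
    unfold trp_ent
    split_ifs <;> simp
  map_smul' r Y := by
    unfold trp_ent
    split_ifs <;> simp

theorem st_TRP : ST_TRP := by
  intro n
  let e : Fin (Fintype.card (Fin n × Fin n × Bool)) ≃ Fin n × Fin n × Bool :=
    (Fintype.equivFin _).symm
  refine ⟨Fintype.card (Fin n × Fin n × Bool), fun k => trp_c n (e k), ?_⟩
  have key : ∀ (j : ℕ) (a b : Fin n),
      ∃ P Q : MvPolynomial (Fin (Fintype.card (Fin n × Fin n × Bool))) ℝ,
        P.IsHomogeneous j ∧ Q.IsHomogeneous j ∧ ∀ Y : M n,
          trp_ent (((-Complex.I) • Y) ^ j : M n) a b =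
            ((MvPolynomial.eval (fun k => trp_c n (e k) Y) P : ℝ) : ℂ) +
              Complex.I * ((MvPolynomial.eval (fun k => trp_c n (e k) Y) Q : ℝ) : ℂ) := by
    intro j
    induction j with
    | zero =>
      intro a b
      refine ⟨C (if a = b then 1 else 0), 0, isHomogeneous_C _ _, isHomogeneous_zero _ _ _, ?_⟩
      intro Y
      rw [pow_zero, trp_ent_one, eval_C, map_zero]
      split_ifs <;> simp
    | succ j ih =>
      intro a b
      choose P Q hP hQ hPQ using ih
      let xr : Fin n → Fin n → MvPolynomial (Fin (Fintype.card (Fin n × Fin n × Bool))) ℝ :=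
        fun k l => X (e.symm (k, l, true))
      let xi : Fin n → Fin n → MvPolynomial (Fin (Fintype.card (Fin n × Fin n × Bool))) ℝ :=
        fun k l => X (e.symm (k, l, false))
      refine ⟨∑ k, (P a k * xi k b + Q a k * xr k b), ∑ k, (Q a k * xi k b - P a k * xr k b),
        ?_, ?_, ?_⟩
      · apply MvPolynomial.IsHomogeneous.sum
        intro k _
        exact ((hP a k).mul (isHomogeneous_X _ _)).add ((hQ a k).mul (isHomogeneous_X _ _))
      · apply MvPolynomial.IsHomogeneous.sum
        intro k _
        exact ((hQ a k).mul (isHomogeneous_X _ _)).sub ((hP a k).mul (isHomogeneous_X _ _))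
      · intro Y
        rw [pow_succ, trp_ent_mul, map_sum, map_sum]
        push_cast
        rw [Finset.mul_sum, ← Finset.sum_add_distrib]
        refine Finset.sum_congr rfl fun k _ => ?_
        rw [hPQ a k Y]
        have h1 : trp_ent ((-Complex.I) • Y) k b = -Complex.I * trp_ent Y k b := by
          unfold trp_ent
          simp
        have h2 : MvPolynomial.eval (fun k => trp_c n (e k) Y) (xr k b) = (trp_ent Y k b).re := by
          simp only [xr, eval_X, Equiv.apply_symm_apply]
          simp [trp_c]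
        have h3 : MvPolynomial.eval (fun k => trp_c n (e k) Y) (xi k b) = (trp_ent Y k b).im := by
          simp only [xi, eval_X, Equiv.apply_symm_apply]
          simp [trp_c]
        rw [h1, map_add, map_sub, map_mul, map_mul, map_mul, map_mul, h2, h3]
        push_cast
        have h4 : trp_ent Y k b = ((trp_ent Y k b).re : ℂ) + ((trp_ent Y k b).im : ℂ) * Complex.I :=
          (Complex.re_add_im _).symm
        set p : ℂ := ((MvPolynomial.eval (fun k => trp_c n (e k) Y) (P a k) : ℝ) : ℂ)
        set s : ℂ := ((MvPolynomial.eval (fun k => trp_c n (e k) Y) (Q a k) : ℝ) : ℂ)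
        set u : ℂ := (((trp_ent Y k b).re : ℝ) : ℂ)
        set w : ℂ := (((trp_ent Y k b).im : ℝ) : ℂ)
        have h5 := Complex.I_mul_I
        rw [h4]
        linear_combination (-(p * w) - s * u - s * w * Complex.I) * h5
  intro j
  choose P Q hP hQ hPQ using key j
  refine ⟨∑ a, P a a, ?_, ?_⟩
  · apply MvPolynomial.IsHomogeneous.sum
    intro a _
    exact hP a a
  · intro Y
    rw [trp_trace, Complex.re_sum, map_sum]
    refine Finset.sum_congr rfl fun a _ => ?_
    rw [hPQ a a Y]
    simp

end Pool.Agent.Helper83.CB
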